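import Pool.Agent.H623R2.PS.Defs

set_option autoImplicit false

/-!
# Reset Mealy automata

Polynomial space, polynomial-time reductions and the encoding of data by bit strings are those of
`Pool.Agent.H623R2.PS.Defs` and `Pool.Agent.NPC.Defs`.
-/

namespace Pool.Agent.Q216.Mealy

open Pool.Agent.NPC Pool.Agent.H623R2.PS

/-- A Mealy automaton with `n + 1` states and `m + 1` letters, given by the transition map `δ` and
the output map `out`. -/
structure Mealy where
  n : ℕ
  m : ℕ
  δ : Fin (n + 1) → Fin (m + 1) → Fin (n + 1)
  out : Fin (n + 1) → Fin (m + 1) → Fin (m + 1)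

/-- `q · u`. -/
def Mealy.run (A : Mealy) (q : Fin (A.n + 1)) (u : List (Fin (A.m + 1))) : Fin (A.n + 1) :=
  u.foldl A.δ q

/-- `q ∘ u`. -/
def Mealy.trans (A : Mealy) : Fin (A.n + 1) → List (Fin (A.m + 1)) → List (Fin (A.m + 1))
  | _, [] => []
  | q, a :: u => A.out q a :: A.trans (A.δ q a) u

/-- `Q · u`. -/
def Mealy.image (A : Mealy) (u : List (Fin (A.m + 1))) : Finset (Fin (A.n + 1)) :=
  Finset.univ.image fun q => A.run q u

/-- `u` is a synchronizing word. -/
def Mealy.Syn (A : Mealy) (u : List (Fin (A.m + 1))) : Prop := (A.image u).card = 1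

/-- The automaton is reset: it is synchronizing, and the maps `u ↦ q ∘ u` send synchronizing words
to synchronizing words. -/
def IsReset (A : Mealy) : Prop :=
  (∃ u, A.Syn u) ∧ ∀ (q : Fin (A.n + 1)) (u : List (Fin (A.m + 1))), A.Syn u → A.Syn (A.trans q u)

/-- An automaton is encoded by the tables of `δ` and `out` (one row per letter). -/
def Mealy.code (A : Mealy) : List (List ℕ) × List (List ℕ) :=
  ((List.finRange (A.m + 1)).map fun a => (List.finRange (A.n + 1)).map fun q => (A.δ q a).val,
    (List.finRange (A.m + 1)).map fun a => (List.finRange (A.n + 1)).map fun q => (A.out q a).val)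

theorem Mealy.code_injective : Function.Injective Mealy.code := by
  rintro ⟨n, m, δ, o⟩ ⟨n', m', δ', o'⟩ h
  simp only [Mealy.code, Prod.mk.injEq] at h
  obtain ⟨h1, h2⟩ := h
  have hm : m = m' := by
    have := congrArg List.length h1
    simpa using this
  subst hm
  have hn : n = n' := by
    have h3 := congrArg (fun l => (l.headD []).length) h1
    simpa [List.finRange_succ] using h3
  subst hn
  have e1 : δ = δ' := by
    funext q a
    have h3 := (List.map_inj_left.1 h1) a (List.mem_finRange a)
    have h4 := (List.map_inj_left.1 h3) q (List.mem_finRange q)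
    exact Fin.ext h4
  have e2 : o = o' := by
    funext q a
    have h3 := (List.map_inj_left.1 h2) a (List.mem_finRange a)
    have h4 := (List.map_inj_left.1 h3) q (List.mem_finRange q)
    exact Fin.ext h4
  rw [e1, e2]

instance : TEnc Mealy := ⟨fun A => toT A.code, fun _ _ h => Mealy.code_injective (TEnc.inj h)⟩

end Pool.Agent.Q216.Mealy
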