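import Pool.Agent.Q216.Mealy.Defs
import Pool.Agent.H623R2.PS.TM

set_option autoImplicit false

/-!
# `PSPACE`-hardness of recognising non-reset Mealy automata
-/

namespace Pool.Agent.Q216.Mealy

open Pool.Agent.NPC Pool.Agent.H623R2.PS

/-- The transition function: states `0 = p`, `1 = f`, `2 = s`, and `3 + (t * (V + 1) + v)` for the
token `t` with value `v`; letters `0` (everything to `p`), `1` (exit), `2` (reset), `3` (identity),
and `4 + i` for the `i`-th rule. -/
def dm (S : RS) (s a : ℕ) : ℕ :=
  if a = 0 then 0
  else if s < 3 then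
    if a = 1 then (if s = 1 then 0 else s)
    else if a = 2 then (if s = 2 then 0 else s)
    else s
  else if a = 1 then
    (if okf S.1 S.2.2.2 ((s - 3) / (S.1 + 1)) ((s - 3) % (S.1 + 1)) = true then 0 else 2)
  else if a = 2 then
    3 + (((s - 3) / (S.1 + 1)) * (S.1 + 1) + min (S.2.1.getD ((s - 3) / (S.1 + 1)) 0) S.1)
  else if a = 3 then s
  else 3 + (((s - 3) / (S.1 + 1)) * (S.1 + 1) +
    min (tok S.1 (S.2.2.1.getD (a - 4) []) ((s - 3) / (S.1 + 1)) ((s - 3) % (S.1 + 1))) S.1)

/-- The output function. -/
def om (s a : ℕ) : ℕ := if s = 1 ∧ a ≠ 0 then 3 else 0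

/-- The number of states, minus one. -/
def nn (S : RS) : ℕ := 2 + S.2.1.length * (S.1 + 1)

/-- The number of letters, minus one. -/
def mm (S : RS) : ℕ := 3 + S.2.2.1.length

/-- The Mealy automaton of a rule system. -/
def toM (S : RS) : Mealy where
  n := nn S
  m := mm S
  δ := fun q a => ⟨if dm S q.val a.val < nn S + 1 then dm S q.val a.val else 0, by
    split_ifs with h
    · exact h
    · exact Nat.succ_pos _⟩
  out := fun q a => ⟨if om q.val a.val < mm S + 1 then om q.val a.val else 0, by
    split_ifs with h
    · exact h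
    · exact Nat.succ_pos _⟩

/-- The state of the token `t` with value `v`. -/
def st (S : RS) (t v : ℕ) : ℕ := 3 + (t * (S.1 + 1) + v)

theorem st_lt {S : RS} {t v : ℕ} (ht : t < S.2.1.length) (hv : v ≤ S.1) :
    st S t v < nn S + 1 := by
  unfold st nn
  have : (t + 1) * (S.1 + 1) ≤ S.2.1.length * (S.1 + 1) := Nat.mul_le_mul_right _ ht
  have : (t + 1) * (S.1 + 1) = t * (S.1 + 1) + (S.1 + 1) := by ring
  omega

theorem exists_st {S : RS} {s : ℕ} (h : s < nn S + 1) (h' : ¬ s < 3) :
    ∃ t v, t < S.2.1.length ∧ v ≤ S.1 ∧ s = st S t v := by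
  refine ⟨(s - 3) / (S.1 + 1), (s - 3) % (S.1 + 1), ?_, ?_, ?_⟩
  · unfold nn at h
    rw [Nat.div_lt_iff_lt_mul (by omega)]
    omega
  · have := Nat.mod_lt (s - 3) (show 0 < S.1 + 1 by omega)
    omega
  · unfold st
    have := Nat.div_add_mod (s - 3) (S.1 + 1)
    have e : (s - 3) / (S.1 + 1) * (S.1 + 1) = (S.1 + 1) * ((s - 3) / (S.1 + 1)) :=
      Nat.mul_comm _ _
    omega

theorem st_div {S : RS} {t v : ℕ} (hv : v ≤ S.1) : (st S t v - 3) / (S.1 + 1) = t := by
  unfold st
  rw [Nat.add_sub_cancel_left, Nat.add_comm, Nat.add_mul_div_right _ _ (by omega),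
    Nat.div_eq_of_lt (by omega), Nat.zero_add]

theorem st_mod {S : RS} {t v : ℕ} (hv : v ≤ S.1) : (st S t v - 3) % (S.1 + 1) = v := by
  unfold st
  rw [Nat.add_sub_cancel_left, Nat.add_comm, Nat.add_mul_mod_self_right,
    Nat.mod_eq_of_lt (by omega)]

theorem st_not_lt {S : RS} {t v : ℕ} : ¬ st S t v < 3 := by
  unfold st; omega

/-! ### The transition function on the different states and letters -/

theorem dm_zero (S : RS) (s : ℕ) : dm S s 0 = 0 := by
  unfold dm; rw [if_pos rfl]

theorem dm_exit {S : RS} {t v : ℕ} (hv : v ≤ S.1) :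
    dm S (st S t v) 1 = if okf S.1 S.2.2.2 t v = true then 0 else 2 := by
  unfold dm
  rw [if_neg (by omega), if_neg st_not_lt, if_pos rfl, st_div hv, st_mod hv]

theorem dm_reset {S : RS} {t v : ℕ} (hv : v ≤ S.1) :
    dm S (st S t v) 2 = st S t (min (S.2.1.getD t 0) S.1) := by
  unfold dm
  rw [if_neg (by omega), if_neg st_not_lt, if_neg (by omega), if_pos rfl, st_div hv]
  rfl

theorem dm_three {S : RS} (s : ℕ) : dm S s 3 = s := by
  unfold dm
  rw [if_neg (by omega), if_neg (by omega : ¬ (3 = 1)), if_neg (by omega : ¬ (3 = 2)),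
    if_neg (by omega : ¬ (3 = 1)), if_neg (by omega : ¬ (3 = 2)), if_pos rfl]
  split_ifs <;> rfl

theorem dm_rule {S : RS} {t v i : ℕ} (hv : v ≤ S.1) :
    dm S (st S t v) (4 + i) = st S t (min (tok S.1 (S.2.2.1.getD i []) t v) S.1) := by
  unfold dm
  rw [if_neg (by omega), if_neg st_not_lt, if_neg (by omega), if_neg (by omega),
    if_neg (by omega), st_div hv, st_mod hv, Nat.add_sub_cancel_left]
  rfl

theorem dm_low {S : RS} {s a : ℕ} (hs : s < 3) (ha : 3 ≤ a) : dm S s a = s := by
  unfold dm
  rw [if_neg (by omega), if_pos hs, if_neg (by omega), if_neg (by omega)]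

theorem dm_lt {S : RS} {s a : ℕ} (hs : s < nn S + 1) : dm S s a < nn S + 1 := by
  have h3 : 3 ≤ nn S + 1 := by unfold nn; omega
  rcases Nat.eq_zero_or_pos a with rfl | ha
  · rw [dm_zero]; omega
  by_cases h : s < 3
  · unfold dm
    rw [if_neg (by omega), if_pos h]
    split_ifs <;> omega
  · obtain ⟨t, v, ht, hv, rfl⟩ := exists_st hs h
    have hc : a = 1 ∨ a = 2 ∨ a = 3 ∨ ∃ i, a = 4 + i := by
      by_cases h4 : 4 ≤ a
      · exact Or.inr (Or.inr (Or.inr ⟨a - 4, by omega⟩))
      · omega
    rcases hc with rfl | rfl | rfl | ⟨i, rfl⟩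
    · rw [dm_exit hv]
      split_ifs <;> omega
    · rw [dm_reset hv]
      exact st_lt ht (min_le_right _ _)
    · rw [dm_three]
      exact hs
    · rw [dm_rule hv]
      exact st_lt ht (min_le_right _ _)

theorem om_lt {S : RS} {s a : ℕ} : om s a < mm S + 1 := by
  unfold om mm
  split_ifs <;> omega

/-- Running the automaton on numbers. -/
def rn (S : RS) (w : List ℕ) (s : ℕ) : ℕ := w.foldl (dm S) s

theorem rn_lt {S : RS} (w : List ℕ) {s : ℕ} (hs : s < nn S + 1) : rn S w s < nn S + 1 := by
  induction w generalizing s with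
  | nil => exact hs
  | cons a w ih => exact ih (dm_lt hs)

theorem rn_append (S : RS) (u v : List ℕ) (s : ℕ) : rn S (u ++ v) s = rn S v (rn S u s) :=
  List.foldl_append ..

/-- The output on numbers. -/
def on (S : RS) : ℕ → List ℕ → List ℕ
  | _, [] => []
  | s, a :: u => om s a :: on S (dm S s a) u

theorem toM_δ (S : RS) (q : Fin ((toM S).n + 1)) (a : Fin ((toM S).m + 1)) :
    ((toM S).δ q a).val = dm S q.val a.val := by
  show (if dm S q.val a.val < nn S + 1 then dm S q.val a.val else 0) = _
  rw [if_pos (dm_lt q.2)]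

theorem toM_out (S : RS) (q : Fin ((toM S).n + 1)) (a : Fin ((toM S).m + 1)) :
    ((toM S).out q a).val = om q.val a.val := by
  show (if om q.val a.val < mm S + 1 then om q.val a.val else 0) = _
  rw [if_pos om_lt]

theorem run_val (S : RS) (w : List (Fin ((toM S).m + 1))) (q : Fin ((toM S).n + 1)) :
    ((toM S).run q w).val = rn S (w.map Fin.val) q.val := by
  induction w generalizing q with
  | nil => rfl
  | cons a w ih =>
    show ((toM S).run ((toM S).δ q a) w).val = _
    rw [ih, toM_δ]
    rfl

theorem trans_val (S : RS) (w : List (Fin ((toM S).m + 1))) (q : Fin ((toM S).n + 1)) :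
    ((toM S).trans q w).map Fin.val = on S q.val (w.map Fin.val) := by
  induction w generalizing q with
  | nil => rfl
  | cons a w ih =>
    show ((toM S).out q a).val :: ((toM S).trans ((toM S).δ q a) w).map Fin.val = _
    rw [ih, toM_δ, toM_out]
    rfl

/-- Synchronization on numbers. -/
def sy (S : RS) (w : List ℕ) : Prop := ∀ s < nn S + 1, rn S w s = rn S w 0

theorem syn_iff (S : RS) (w : List (Fin ((toM S).m + 1))) :
    (toM S).Syn w ↔ sy S (w.map Fin.val) := by
  unfold Mealy.Syn Mealy.image
  rw [Finset.card_eq_one]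
  constructor
  · rintro ⟨c, hc⟩ s hs
    have h1 : ∀ q : Fin ((toM S).n + 1), (toM S).run q w = c := by
      intro q
      have : (toM S).run q w ∈ Finset.univ.image fun q => (toM S).run q w :=
        Finset.mem_image_of_mem _ (Finset.mem_univ q)
      rw [hc] at this
      exact Finset.mem_singleton.1 this
    have h2 := h1 ⟨s, hs⟩
    have h3 := h1 ⟨0, Nat.succ_pos _⟩
    have h4 := congrArg Fin.val (h2.trans h3.symm)
    rw [run_val, run_val] at h4
    exact h4
  · intro h
    refine ⟨(toM S).run ⟨0, Nat.succ_pos _⟩ w, ?_⟩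
    ext x
    rw [Finset.mem_image, Finset.mem_singleton]
    have h1 : ∀ q : Fin ((toM S).n + 1), (toM S).run q w = (toM S).run ⟨0, Nat.succ_pos _⟩ w := by
      intro q
      apply Fin.ext
      rw [run_val, run_val]
      exact h q.val q.2
    constructor
    · rintro ⟨q, -, rfl⟩
      exact h1 q
    · rintro rfl
      exact ⟨⟨0, Nat.succ_pos _⟩, Finset.mem_univ _, rfl⟩

/-! ### Runs -/

theorem rn_zero {S : RS} (w : List ℕ) : rn S w 0 = 0 := by
  induction w with
  | nil => rfl
  | cons a w ih =>
    have : dm S 0 a = 0 := by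
      unfold dm
      split_ifs <;> first | rfl | omega
    show rn S w (dm S 0 a) = 0
    rw [this, ih]

theorem rn_one {S : RS} (w : List ℕ) (hw : ∀ a ∈ w, 2 ≤ a) : rn S w 1 = 1 := by
  induction w with
  | nil => rfl
  | cons a w ih =>
    have ha := hw a List.mem_cons_self
    have : dm S 1 a = 1 := by
      unfold dm
      rw [if_neg (by omega), if_pos (by omega), if_neg (by omega)]
      split_ifs <;> first | rfl | omega
    show rn S w (dm S 1 a) = 1
    rw [this]
    exact ih fun b hb => hw b (List.mem_cons_of_mem _ hb)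

theorem rn_two {S : RS} (w : List ℕ) (hw : ∀ a ∈ w, 3 ≤ a) : rn S w 2 = 2 := by
  induction w with
  | nil => rfl
  | cons a w ih =>
    show rn S w (dm S 2 a) = 2
    rw [dm_low (by omega) (hw a List.mem_cons_self)]
    exact ih fun b hb => hw b (List.mem_cons_of_mem _ hb)

/-- Words without `0`, `1` keep the tokens. -/
theorem exists_rn_token {S : RS} (w : List ℕ) (hw : ∀ a ∈ w, 2 ≤ a) {t v : ℕ} (hv : v ≤ S.1) :
    ∃ v' ≤ S.1, rn S w (st S t v) = st S t v' := by
  induction w generalizing v with
  | nil => exact ⟨v, hv, rfl⟩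
  | cons a w ih =>
    have ha := hw a List.mem_cons_self
    have ih' := fun {v : ℕ} (hv : v ≤ S.1) =>
      ih (fun b hb => hw b (List.mem_cons_of_mem _ hb)) (v := v) hv
    show ∃ v' ≤ S.1, rn S w (dm S (st S t v) a) = st S t v'
    have hc : a = 2 ∨ a = 3 ∨ ∃ i, a = 4 + i := by
      by_cases h4 : 4 ≤ a
      · exact Or.inr (Or.inr ⟨a - 4, by omega⟩)
      · omega
    rcases hc with rfl | rfl | ⟨i, rfl⟩
    · rw [dm_reset hv]
      exact ih' (min_le_right _ _)
    · rw [dm_three]
      exact ih' hv
    · rw [dm_rule hv]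
      exact ih' (min_le_right _ _)

/-- The rules used by a word. -/
def rl (w : List ℕ) : List ℕ := (w.filter fun a => decide (4 ≤ a)).map fun a => a - 4

theorem rn_rules {S : RS} (hS : RSwf S) (w : List ℕ) (hw : ∀ a ∈ w, 3 ≤ a)
    (hw' : ∀ a ∈ w, a < 4 + S.2.2.1.length) {t v : ℕ} (hv : v ≤ S.1) :
    rn S w (st S t v) = st S t (runT S (rl w) t v) := by
  induction w generalizing v with
  | nil => rfl
  | cons a w ih =>
    have ha := hw a List.mem_cons_self
    have ha' := hw' a List.mem_cons_self
    have ih' := fun {v : ℕ} (hv : v ≤ S.1) =>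
      ih (fun b hb => hw b (List.mem_cons_of_mem _ hb))
        (fun b hb => hw' b (List.mem_cons_of_mem _ hb)) (v := v) hv
    show rn S w (dm S (st S t v) a) = _
    have hc : a = 3 ∨ ∃ i, a = 4 + i := by
      by_cases h4 : 4 ≤ a
      · exact Or.inr ⟨a - 4, by omega⟩
      · omega
    rcases hc with rfl | ⟨i, rfl⟩
    · rw [dm_three, ih' hv]
      congr 1
    · have hi : i < S.2.2.1.length := by omega
      have h1 : tok S.1 (S.2.2.1.getD i []) t v ≤ S.1 := tok_le hS (getD_mem hi) hv
      rw [dm_rule hv, min_eq_left h1, ih' h1]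
      congr 1
      have h2 : rl ((4 + i) :: w) = i :: rl w := by
        unfold rl
        rw [List.filter_cons_of_pos (by simp), List.map_cons, Nat.add_sub_cancel_left]
      rw [h2]
      rfl

/-- Splitting a list at the last occurrence of `2`. -/
theorem split_last (w : List ℕ) (h : 2 ∈ w) : ∃ u v, w = u ++ 2 :: v ∧ 2 ∉ v := by
  induction w with
  | nil => simp at h
  | cons a w ih =>
    by_cases h' : 2 ∈ w
    · obtain ⟨u, v, rfl, hv⟩ := ih h'
      exact ⟨a :: u, v, rfl, hv⟩
    · rw [List.mem_cons] at h
      rcases h with rfl | h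
      · exact ⟨[], w, rfl, h'⟩
      · exact absurd h h'

theorem on_ne_one (S : RS) {s : ℕ} (hs : s ≠ 1) (a : ℕ) (u : List ℕ) : 0 ∈ on S s (a :: u) := by
  show 0 ∈ om s a :: on S (dm S s a) u
  unfold om
  rw [if_neg (fun h => hs h.1)]
  exact List.mem_cons_self

theorem sy_of_mem {S : RS} {w : List ℕ} (h : 0 ∈ w) : sy S w := by
  obtain ⟨u, v, rfl⟩ := List.append_of_mem h
  intro s _
  rw [rn_append, rn_append]
  show rn S v (dm S _ 0) = rn S v (dm S _ 0)
  rw [dm_zero, dm_zero]

/-- The shape of a word on which the state `1` does not output `0`. -/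
theorem shape (S : RS) (u : List ℕ) (h : 0 ∉ on S 1 u) :
    (∀ a ∈ u, 2 ≤ a) ∨ ∃ w, u = w ++ [1] ∧ ∀ a ∈ w, 2 ≤ a := by
  induction u with
  | nil => left; simp
  | cons a u ih =>
    have ha : a ≠ 0 := by
      rintro rfl
      apply h
      show 0 ∈ om 1 0 :: on S (dm S 1 0) u
      simp [om]
    by_cases ha1 : a = 1
    · subst ha1
      cases u with
      | nil => exact Or.inr ⟨[], rfl, by simp⟩
      | cons b u =>
        exfalso
        apply h
        show 0 ∈ om 1 1 :: on S (dm S 1 1) (b :: u)
        have e : dm S 1 1 = 0 := by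
          unfold dm
          simp
        rw [e]
        exact List.mem_cons_of_mem _ (on_ne_one S (by omega) b u)
    · have e : dm S 1 a = 1 := by
        have := rn_one (S := S) [a] (by simp; omega)
        exact this
      have h' : 0 ∉ on S 1 u := by
        intro h2
        apply h
        show 0 ∈ om 1 a :: on S (dm S 1 a) u
        rw [e]
        exact List.mem_cons_of_mem _ h2
      rcases ih h' with h2 | ⟨w, rfl, h2⟩
      · left
        intro b hb
        rw [List.mem_cons] at hb
        rcases hb with rfl | hb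
        · omega
        · exact h2 b hb
      · right
        refine ⟨a :: w, rfl, ?_⟩
        intro b hb
        rw [List.mem_cons] at hb
        rcases hb with rfl | hb
        · omega
        · exact h2 b hb

theorem on_one (S : RS) (w : List ℕ) (hw : ∀ a ∈ w, 2 ≤ a) :
    on S 1 (w ++ [1]) = List.replicate (w.length + 1) 3 := by
  induction w with
  | nil =>
    show [om 1 1] = [3]
    simp [om]
  | cons a w ih =>
    have ha := hw a List.mem_cons_self
    show om 1 a :: on S (dm S 1 a) (w ++ [1]) = _
    have e : dm S 1 a = 1 := rn_one (S := S) [a] (by simpa using ha)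
    rw [e, ih fun b hb => hw b (List.mem_cons_of_mem _ hb)]
    have e2 : om 1 a = 3 := by
      unfold om
      rw [if_pos ⟨rfl, by omega⟩]
    rw [e2]
    rfl

theorem not_sy_replicate (S : RS) (k : ℕ) : ¬ sy S (List.replicate k 3) := by
  intro h
  have h1 := h 1 (by unfold nn; omega)
  rw [rn_zero, rn_one _ (by
    intro a ha
    rw [List.eq_of_mem_replicate ha]
    omega)] at h1
  omega

/-- The automaton is reset iff the rule system is not solvable. -/
theorem toM_iff {S : RS} (hS : RSwf S) : IsReset (toM S) ↔ ¬ RSyes S := by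
  constructor
  · rintro ⟨-, hreset⟩ hyes
    rw [RSyes_iff] at hyes
    obtain ⟨w, hw, hok⟩ := hyes
    -- the word
    let u : List ℕ := (2 :: w.map fun i => 4 + i) ++ [1]
    have hlt : ∀ a ∈ u, a < (toM S).m + 1 := by
      intro a ha
      show a < 3 + S.2.2.1.length + 1
      simp only [u, List.cons_append, List.mem_cons, List.mem_append, List.mem_map,
        List.not_mem_nil, or_false] at ha
      rcases ha with rfl | ⟨i, hi, rfl⟩ | rfl
      · omega
      · have := hw i hi
        omega
      · omega
    let u' : List (Fin ((toM S).m + 1)) := u.attach.map fun a => ⟨a.1, hlt a.1 a.2⟩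
    have hu' : u'.map Fin.val = u := by
      simp [u']
    have h2 : ∀ a ∈ (2 :: w.map fun i => 4 + i), 2 ≤ a := by
      intro a ha
      simp only [List.mem_cons, List.mem_map] at ha
      rcases ha with rfl | ⟨i, hi, rfl⟩ <;> omega
    have hsyn : (toM S).Syn u' := by
      rw [syn_iff, hu']
      intro s hs
      rw [rn_zero]
      show rn S ((2 :: w.map fun i => 4 + i) ++ [1]) s = 0
      rw [rn_append]
      show dm S (rn S (w.map fun i => 4 + i) (dm S s 2)) 1 = 0
      by_cases hs3 : s < 3
      · have h3 : ∀ a ∈ w.map fun i => 4 + i, 2 ≤ a := by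
          intro a ha
          obtain ⟨i, hi, rfl⟩ := List.mem_map.1 ha
          omega
        rcases (by omega : s = 0 ∨ s = 1 ∨ s = 2) with rfl | rfl | rfl
        · have e : dm S 0 2 = 0 := by unfold dm; simp
          rw [e, rn_zero]
          unfold dm
          simp
        · have e : dm S 1 2 = 1 := by unfold dm; simp
          rw [e, rn_one _ h3]
          unfold dm
          simp
        · have e : dm S 2 2 = 0 := by unfold dm; simp
          rw [e, rn_zero]
          unfold dm
          simp
      · obtain ⟨t, v, ht, hv, rfl⟩ := exists_st hs hs3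
        have hiv : S.2.1.getD t 0 < S.1 := by
          rw [List.getD_eq_getElem _ _ ht]
          exact hS.1 _ (List.getElem_mem _)
        rw [dm_reset hv, min_eq_left hiv.le, rn_rules hS _ (by
          intro a ha
          obtain ⟨i, hi, rfl⟩ := List.mem_map.1 ha
          omega) (by
          intro a ha
          obtain ⟨i, hi, rfl⟩ := List.mem_map.1 ha
          have := hw i hi
          omega) hiv.le]
        have hrl : rl (w.map fun i => 4 + i) = w := by
          unfold rl
          rw [List.filter_eq_self.2 (by
            intro a ha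
            obtain ⟨i, hi, rfl⟩ := List.mem_map.1 ha
            simp), List.map_map]
          have : ((fun a => a - 4) ∘ fun i => 4 + i) = (id : ℕ → ℕ) := by
            funext i
            simp
          rw [this, List.map_id]
        rw [hrl, dm_exit (runT_le hS hw hiv.le), if_pos (hok t ht)]
    have h3 := hreset ⟨1, by show 1 < nn S + 1; unfold nn; omega⟩ u' hsyn
    rw [syn_iff, trans_val, hu'] at h3
    have h4 : on S 1 u = List.replicate ((2 :: w.map fun i => 4 + i).length + 1) 3 :=
      on_one S _ h2
    rw [h4] at h3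
    exact not_sy_replicate S _ h3
  · intro hno
    refine ⟨⟨[⟨0, Nat.succ_pos _⟩], ?_⟩, ?_⟩
    · rw [syn_iff]
      exact sy_of_mem (by simp)
    · intro q u hu
      rw [syn_iff] at hu ⊢
      rw [trans_val]
      set w := u.map Fin.val with hw
      have hlt : ∀ a ∈ w, a < 4 + S.2.2.1.length := by
        intro a ha
        rw [hw, List.mem_map] at ha
        obtain ⟨b, -, rfl⟩ := ha
        have : b.val < 3 + S.2.2.1.length + 1 := b.2
        omega
      by_cases h0 : 0 ∈ on S q.val w
      · exact sy_of_mem h0
      · exfalso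
        have hne : w ≠ [] := by
          intro he
          rw [he] at hu
          have h1 := hu 1 (by unfold nn; omega)
          change 1 = 0 at h1
          omega
        have hq : q.val = 1 := by
          by_contra hq
          obtain ⟨a, v, he⟩ := List.exists_cons_of_ne_nil hne
          rw [he] at h0
          exact h0 (on_ne_one S hq a v)
        rw [hq] at h0
        rcases shape S w h0 with h1 | ⟨v, hv, h1⟩
        · have h2 := hu 1 (by unfold nn; omega)
          rw [rn_zero, rn_one _ h1] at h2
          omega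
        · apply hno
          rw [hv] at hu hlt
          have hex : ∀ s < nn S + 1, dm S (rn S v s) 1 = 0 := by
            intro s hs
            have h2 := hu s hs
            rw [rn_zero, rn_append] at h2
            exact h2
          have hmem : 2 ∈ v := by
            by_contra hmem
            have h2 := hex 2 (by unfold nn; omega)
            rw [rn_two v (by
              intro a ha
              have h3 := h1 a ha
              have : a ≠ 2 := fun h4 => hmem (h4 ▸ ha)
              omega)] at h2
            unfold dm at h2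
            simp at h2
          obtain ⟨x, y, hxy, hy⟩ := split_last v hmem
          have hy3 : ∀ a ∈ y, 3 ≤ a := by
            intro a ha
            have h3 := h1 a (by rw [hxy]; simp [ha])
            have : a ≠ 2 := fun h4 => hy (h4 ▸ ha)
            omega
          have hylt : ∀ a ∈ y, a < 4 + S.2.2.1.length := by
            intro a ha
            exact hlt a (by rw [hxy]; simp [ha])
          rw [RSyes_iff]
          have hrlt : ∀ i ∈ rl y, i < S.2.2.1.length := by
            intro i hi
            unfold rl at hi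
            rw [List.mem_map] at hi
            obtain ⟨a, ha, rfl⟩ := hi
            rw [List.mem_filter, decide_eq_true_eq] at ha
            have := hylt a ha.1
            omega
          refine ⟨rl y, hrlt, ?_⟩
          intro t ht
          have hV : 0 ≤ S.1 := Nat.zero_le _
          have hiv : S.2.1.getD t 0 < S.1 := by
            rw [List.getD_eq_getElem _ _ ht]
            exact hS.1 _ (List.getElem_mem _)
          have h2 := hex (st S t 0) (st_lt ht hV)
          obtain ⟨v', hv', h3⟩ := exists_rn_token x (fun a ha => h1 a (by rw [hxy]; simp [ha]))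
            (t := t) hV
          rw [hxy, rn_append, h3] at h2
          change dm S (rn S y (dm S (st S t v') 2)) 1 = 0 at h2
          rw [dm_reset hv', min_eq_left hiv.le, rn_rules hS y hy3 hylt hiv.le,
            dm_exit (runT_le hS hrlt hiv.le)] at h2
          by_contra h4
          rw [if_neg h4] at h2
          omega

end Pool.Agent.Q216.Mealy
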