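import Pool.Agent.Q216.Mealy.Hard

set_option autoImplicit false

/-!
# The reduction is polynomial, and RESET is `PSPACE`-hard
-/

namespace Pool.Agent.Q216.Mealy

open Pool.Agent.NPC Pool.Agent.H623R2.PS Turing

variable {α : Type} [TEnc α]

theorem poly_dm {S : α → RS} {s a : α → ℕ} (hS : NPC.Poly S) (hs : NPC.Poly s)
    (ha : NPC.Poly a) : NPC.Poly (fun x => dm (S x) (s x) (a x)) := by
  have hV : NPC.Poly (fun x => (S x).1) := NPC.Poly.fst hS
  have hI : NPC.Poly (fun x => (S x).2.1) := NPC.Poly.fst (NPC.Poly.snd hS)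
  have hR : NPC.Poly (fun x => (S x).2.2.1) := NPC.Poly.fst (NPC.Poly.snd (NPC.Poly.snd hS))
  have hF : NPC.Poly (fun x => (S x).2.2.2) := NPC.Poly.snd (NPC.Poly.snd (NPC.Poly.snd hS))
  have hc : ∀ n : ℕ, NPC.Poly (fun _ : α => n) := fun n => NPC.Poly.const n
  have heq : ∀ (n : ℕ) {f : α → ℕ}, NPC.Poly f → NPC.Poly (fun x => decide (f x = n)) :=
    fun n f hf => NPC.Poly.decide_eq hf (hc n)
  have hV1 : NPC.Poly (fun x => (S x).1 + 1) := NPC.Poly.succ hV
  have hsub : NPC.Poly (fun x => s x - 3) := NPC.Poly.sub hs (hc _)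
  have ht : NPC.Poly (fun x => (s x - 3) / ((S x).1 + 1)) := NPC.Poly.div hsub hV1
  have hv : NPC.Poly (fun x => (s x - 3) % ((S x).1 + 1)) := NPC.Poly.mod hsub hV1
  have hbase : ∀ {f : α → ℕ}, NPC.Poly f → NPC.Poly (fun x => 3 +
      (((s x - 3) / ((S x).1 + 1)) * ((S x).1 + 1) + min (f x) (S x).1)) :=
    fun hf => NPC.Poly.add (hc _) (NPC.Poly.add (NPC.Poly.mul ht hV1) (NPC.Poly.min hf hV))
  unfold dm
  refine NPC.Poly.ite (heq 0 ha) (hc 0) (NPC.Poly.ite (NPC.Poly.decide_lt hs (hc _)) ?_ ?_)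
  · exact NPC.Poly.ite (heq 1 ha) (NPC.Poly.ite (heq 1 hs) (hc 0) hs)
      (NPC.Poly.ite (heq 2 ha) (NPC.Poly.ite (heq 2 hs) (hc 0) hs) hs)
  · refine NPC.Poly.ite (heq 1 ha) ?_ (NPC.Poly.ite (heq 2 ha)
      (hbase (NPC.Poly.getD hI ht (hc 0))) (NPC.Poly.ite (heq 3 ha) hs ?_))
    · exact NPC.Poly.ite (NPC.Poly.decide_bool (poly_okf hV hF ht hv)) (hc 0) (hc 2)
    · exact hbase (poly_tok hV (NPC.Poly.getD hR (NPC.Poly.sub ha (hc 4)) (NPC.Poly.const []))
        ht hv)

theorem poly_om {s a : α → ℕ} (hs : NPC.Poly s) (ha : NPC.Poly a) :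
    NPC.Poly (fun x => om (s x) (a x)) := by
  unfold om
  exact NPC.Poly.ite (NPC.Poly.decide_and (NPC.Poly.decide_eq hs (NPC.Poly.const 1))
    (NPC.Poly.decide_not (NPC.Poly.decide_eq ha (NPC.Poly.const 0)))) (NPC.Poly.const 3)
    (NPC.Poly.const 0)

theorem poly_toM {S : α → RS} (hS : NPC.Poly S) (hU : UPoly (fun x => (S x).1)) :
    NPC.Poly (fun x => toM (S x)) := by
  have hI : NPC.Poly (fun x => (S x).2.1) := NPC.Poly.fst (NPC.Poly.snd hS)
  have hR : NPC.Poly (fun x => (S x).2.2.1) := NPC.Poly.fst (NPC.Poly.snd (NPC.Poly.snd hS))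
  have hn : UPoly (fun x => nn (S x) + 1) := by
    unfold nn
    exact UPoly.add (UPoly.add (UPoly.const _) (UPoly.mul (UPoly.length hI)
      (UPoly.add hU (UPoly.const 1)))) (UPoly.const 1)
  have hm : UPoly (fun x => mm (S x) + 1) := by
    unfold mm
    exact UPoly.add (UPoly.add (UPoly.const 3) (UPoly.length hR)) (UPoly.const 1)
  have h1 : NPC.Poly (fun x => (List.range (mm (S x) + 1)).map fun a =>
      (List.range (nn (S x) + 1)).map fun s =>
        if dm (S x) s a < nn (S x) + 1 then dm (S x) s a else 0) := by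
    refine NPC.Poly.map (F := fun x a => (List.range (nn (S x) + 1)).map fun s =>
      if dm (S x) s a < nn (S x) + 1 then dm (S x) s a else 0) hm.range ?_
    have hx : NPC.Poly (fun p : α × ℕ => p.1) := NPC.Poly.fst NPC.Poly.id
    refine NPC.Poly.map (F := fun (p : α × ℕ) s =>
      if dm (S p.1) s p.2 < nn (S p.1) + 1 then dm (S p.1) s p.2 else 0)
      (hn.comp hx).range ?_
    have hx : NPC.Poly (fun p : (α × ℕ) × ℕ => p.1.1) := NPC.Poly.fst (NPC.Poly.fst NPC.Poly.id)
    have ha : NPC.Poly (fun p : (α × ℕ) × ℕ => p.1.2) := NPC.Poly.snd (NPC.Poly.fst NPC.Poly.id)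
    have hs : NPC.Poly (fun p : (α × ℕ) × ℕ => p.2) := NPC.Poly.snd NPC.Poly.id
    have hd := poly_dm (hS.comp hx) hs ha
    exact NPC.Poly.ite (NPC.Poly.decide_lt hd (hn.toPoly.comp hx)) hd (NPC.Poly.const 0)
  have h2 : NPC.Poly (fun x => (List.range (mm (S x) + 1)).map fun a =>
      (List.range (nn (S x) + 1)).map fun s =>
        if om s a < mm (S x) + 1 then om s a else 0) := by
    refine NPC.Poly.map (F := fun x a => (List.range (nn (S x) + 1)).map fun s =>
      if om s a < mm (S x) + 1 then om s a else 0) hm.range ?_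
    have hx : NPC.Poly (fun p : α × ℕ => p.1) := NPC.Poly.fst NPC.Poly.id
    refine NPC.Poly.map (F := fun (p : α × ℕ) s =>
      if om s p.2 < mm (S p.1) + 1 then om s p.2 else 0)
      (hn.comp hx).range ?_
    have hx : NPC.Poly (fun p : (α × ℕ) × ℕ => p.1.1) := NPC.Poly.fst (NPC.Poly.fst NPC.Poly.id)
    have ha : NPC.Poly (fun p : (α × ℕ) × ℕ => p.1.2) := NPC.Poly.snd (NPC.Poly.fst NPC.Poly.id)
    have hs : NPC.Poly (fun p : (α × ℕ) × ℕ => p.2) := NPC.Poly.snd NPC.Poly.id
    have hd := poly_om hs ha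
    exact NPC.Poly.ite (NPC.Poly.decide_lt hd (hm.toPoly.comp hx)) hd (NPC.Poly.const 0)
  have h3 := NPC.Poly.pair h1 h2
  refine NPC.Poly.of_toT (h3.toT'.congr fun x => ?_)
  show toT _ = toT (toM (S x)).code
  congr 1
  unfold Mealy.code
  have e1 : ∀ a : Fin ((toM (S x)).m + 1),
      ((List.finRange ((toM (S x)).n + 1)).map fun q => ((toM (S x)).δ q a).val) =
      (List.range (nn (S x) + 1)).map fun s =>
        if dm (S x) s a.val < nn (S x) + 1 then dm (S x) s a.val else 0 := by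
    intro a
    exact finRange_map_val (nn (S x) + 1) (fun s =>
        if dm (S x) s a.val < nn (S x) + 1 then dm (S x) s a.val else 0)
  have e2 : ∀ a : Fin ((toM (S x)).m + 1),
      ((List.finRange ((toM (S x)).n + 1)).map fun q => ((toM (S x)).out q a).val) =
      (List.range (nn (S x) + 1)).map fun s =>
        if om s a.val < mm (S x) + 1 then om s a.val else 0 := by
    intro a
    exact finRange_map_val (nn (S x) + 1) (fun s =>
        if om s a.val < mm (S x) + 1 then om s a.val else 0)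
  simp only [e1, e2]
  have e3 := finRange_map_val (mm (S x) + 1) (fun a =>
    (List.range (nn (S x) + 1)).map fun s =>
        if dm (S x) s a < nn (S x) + 1 then dm (S x) s a else 0)
  have e4 := finRange_map_val (mm (S x) + 1) (fun a =>
    (List.range (nn (S x) + 1)).map fun s =>
        if om s a < mm (S x) + 1 then om s a else 0)
  exact congrArg₂ Prod.mk e3.symm e4.symm

/-- `PSPACE` is closed under complementation. -/
theorem inPSPACE_compl {L : Set (List Bool)} (h : InPSPACE L) : InPSPACE Lᶜ := by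
  obtain ⟨f, M, p, hf, hp⟩ := h
  refine ⟨fun x => !f x, ⟨⟨M.tm, M.inputAlphabet, M.outputAlphabet.trans Equiv.boolNot⟩, ?_⟩, p,
    ?_, hp⟩
  · intro a
    have h1 := M.outputsFun a
    have h2 : ([f a].map M.outputAlphabet.invFun) =
        ([!f a].map (M.outputAlphabet.trans Equiv.boolNot).invFun) := by
      simp
    rw [h2] at h1
    exact h1
  · intro x
    rw [Set.mem_compl_iff, hf]
    simp

/-- RESET is `PSPACE`-hard. -/
theorem hard : PSPACEHard (lang IsReset) := by
  intro L hL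
  obtain ⟨S, hS, hU, hwf, hiff⟩ := pspace_rules (inPSPACE_compl hL)
  refine ⟨fun x => bits (toM (S x)), ?_, ?_⟩
  · have h1 : PC (bits : List Bool → List Bool) (bits : Mealy → List Bool)
        (fun x => toM (S x)) := poly_toM hS hU
    have h2 : PC (fun x : List Bool => x) (bits : List Bool → List Bool) (fun x => x) := PC.ofBits
    obtain ⟨c, p, h⟩ := PC.comp h1 h2
    exact PC.toPolyTime ⟨c, p, h⟩
  · intro x
    have h1 : x ∈ L ↔ IsReset (toM (S x)) := by
      rw [toM_iff (hwf x), ← hiff, Set.mem_compl_iff, not_not]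
    rw [h1]
    unfold lang
    constructor
    · intro h
      exact ⟨_, rfl, h⟩
    · rintro ⟨I, hI, h⟩
      have : I = toM (S x) := TEnc.inj (T.enc_injective hI)
      rwa [this] at h

end Pool.Agent.Q216.Mealy
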