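import Pool.Agent.H623R2.PS.Savitch

set_option autoImplicit false

/-!
# Conjunctions of a reachability condition and a non-reachability condition are in `PSPACE`
-/

namespace Pool.Agent.Q216.Mealy

open Pool.Agent.NPC Pool.Agent.H623R2.PS

theorem evq_congr (qs : List Bool) (φ ψ : List Bool → Bool)
    (h : ∀ u, u.length = qs.length → φ u = ψ u) : evq qs φ = evq qs ψ := by
  induction qs generalizing φ ψ with
  | nil => exact h [] rfl
  | cons q qs ih =>
    rw [evq, evq, ih _ _ (fun u hu => h (false :: u) (by simp [hu])),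
      ih _ _ (fun u hu => h (true :: u) (by simp [hu]))]

theorem evq_not (qs : List Bool) (φ : List Bool → Bool) :
    evq (qs.map fun b => !b) (fun u => !φ u) = !(evq qs φ) := by
  induction qs generalizing φ with
  | nil => rfl
  | cons q qs ih =>
    rw [List.map_cons, evq, evq, ih, ih]
    cases q <;> simp

theorem evq_append_and (qs qs' : List Bool) (φ ψ : List Bool → Bool) :
    evq (qs ++ qs') (fun u => φ (u.take qs.length) && ψ (u.drop qs.length)) =
      (evq qs φ && evq qs' ψ) := by
  induction qs generalizing φ with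
  | nil =>
    simp only [List.nil_append, List.length_nil, List.take_zero, List.drop_zero]
    rw [evq_and]
    rfl
  | cons q qs ih =>
    rw [List.cons_append, evq, evq]
    simp only [List.length_cons, List.take_succ_cons, List.drop_succ_cons]
    rw [ih (fun u => φ (false :: u)), ih (fun u => φ (true :: u))]
    cases q <;> cases evq qs' ψ <;> simp

section Poly

variable {α : Type} [TEnc α]

private theorem take_eq_aux {β : Type} (k : ℕ) (l : List β) (j : ℕ) :
    ((l.zipIdx j).filter fun q => decide (q.2 < j + k)).map Prod.fst = l.take k := by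
  induction l generalizing k j with
  | nil => simp
  | cons b l ih =>
    rw [List.zipIdx_cons]
    cases k with
    | zero =>
      rw [List.take_zero, List.map_eq_nil_iff, List.filter_eq_nil_iff]
      rintro ⟨b', i⟩ hb
      rw [← List.zipIdx_cons, List.mem_zipIdx_iff_le_and_getElem?_sub] at hb
      simp only [decide_eq_true_eq]
      omega
    | succ k =>
      have ih := ih k (j + 1)
      rw [List.take_succ_cons, ← ih, List.filter_cons_of_pos (by simp), List.map_cons,
        show j + (k + 1) = j + 1 + k by omega]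

private theorem drop_eq_aux {β : Type} (k : ℕ) (l : List β) (j : ℕ) :
    ((l.zipIdx j).filter fun q => decide (j + k ≤ q.2)).map Prod.fst = l.drop k := by
  induction l generalizing k j with
  | nil => simp
  | cons b l ih =>
    rw [List.zipIdx_cons]
    cases k with
    | zero =>
      rw [List.drop_zero, List.filter_eq_self.2]
      · rw [← List.zipIdx_cons]
        exact List.zipIdx_map_fst _ _
      · rintro ⟨b, i⟩ hb
        rw [← List.zipIdx_cons, List.mem_zipIdx_iff_le_and_getElem?_sub] at hb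
        simp only [decide_eq_true_eq]
        omega
    | succ k =>
      have ih := ih k (j + 1)
      rw [List.drop_succ_cons, ← ih, List.filter_cons_of_neg (by simp),
        show j + (k + 1) = j + 1 + k by omega]

theorem poly_take {β : Type} [TEnc β] {l : α → List β} {k : α → ℕ} (hl : NPC.Poly l)
    (hk : NPC.Poly k) : NPC.Poly (fun a => (l a).take (k a)) := by
  have h : NPC.Poly (fun a => (((l a).zipIdx.filter fun q => decide (q.2 < k a)).map Prod.fst)) := by
    fun_prop
  refine h.congr fun a => ?_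
  have := take_eq_aux (k a) (l a) 0
  simpa using this

theorem poly_drop {β : Type} [TEnc β] {l : α → List β} {k : α → ℕ} (hl : NPC.Poly l)
    (hk : NPC.Poly k) : NPC.Poly (fun a => (l a).drop (k a)) := by
  have h : NPC.Poly (fun a => (((l a).zipIdx.filter fun q => decide (k a ≤ q.2)).map Prod.fst)) := by
    fun_prop
  refine h.congr fun a => ?_
  have := drop_eq_aux (k a) (l a) 0
  simpa using this

/-- The matrix of the quantified formula for reachability. -/
def mat (w : α → ℕ) (R : α → List Bool → List Bool → Bool) (s t : α → List Bool) (a : α)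
    (u : List Bool) : Bool :=
  decide ((fin3 (w a) (s a) (t a) u).1 = (fin3 (w a) (s a) (t a) u).2.1) ||
    R a (fin3 (w a) (s a) (t a) u).1 (fin3 (w a) (s a) (t a) u).2.1

theorem poly_mat {w : α → ℕ} (hw : UPoly w) {R : α → List Bool → List Bool → Bool}
    (hR : NPC.Poly (fun p : α × List Bool × List Bool => R p.1 p.2.1 p.2.2))
    {s t : α → List Bool} (hs : NPC.Poly s) (ht : NPC.Poly t) :
    NPC.Poly (fun p : α × List Bool => mat w R s t p.1 p.2) := by
  have hwp := hw.toPoly
  have h1 : NPC.Poly (fun p : α × List Bool => fin3 (w p.1) (s p.1) (t p.1) p.2) :=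
    poly_fin3.comp (f := fun p : α × List Bool => (w p.1, s p.1, t p.1, p.2)) (by fun_prop)
  have h2 : NPC.Poly (fun p : α × List Bool => R p.1 (fin3 (w p.1) (s p.1) (t p.1) p.2).1
      (fin3 (w p.1) (s p.1) (t p.1) p.2).2.1) :=
    hR.comp (f := fun p : α × List Bool => (p.1, (fin3 (w p.1) (s p.1) (t p.1) p.2).1,
      (fin3 (w p.1) (s p.1) (t p.1) p.2).2.1)) (by fun_prop)
  unfold mat
  fun_prop

theorem evq_mat (w : α → ℕ) (R : α → List Bool → List Bool → Bool) (s t : α → List Bool)
    (hsl : ∀ a, (s a).length = w a)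
    (hRl : ∀ a u v, u.length = w a → R a u v = true → v.length = w a) (a : α) :
    evq (blocks (w a) (w a)) (mat w R s t a) = true ↔
      Relation.ReflTransGen (fun u v => R a u v = true) (s a) (t a) := by
  rw [← RR_reach (hRl a) (hsl a)]
  exact evq_blocks (R := R a) (w a) (w a) (s a) (t a)

/-- A reachability condition and the negation of another one. -/
theorem inPSPACE_of_two {L : Set (List Bool)} {init : List Bool → α} (hinit : NPC.Poly init)
    {good : α → Bool} (hgood : NPC.Poly good)
    {w₁ w₂ : α → ℕ} (hw₁ : UPoly w₁) (hw₂ : UPoly w₂)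
    {R₁ R₂ : α → List Bool → List Bool → Bool}
    (hR₁ : NPC.Poly (fun p : α × List Bool × List Bool => R₁ p.1 p.2.1 p.2.2))
    (hR₂ : NPC.Poly (fun p : α × List Bool × List Bool => R₂ p.1 p.2.1 p.2.2))
    {s₁ t₁ s₂ t₂ : α → List Bool} (hs₁ : NPC.Poly s₁) (ht₁ : NPC.Poly t₁) (hs₂ : NPC.Poly s₂)
    (ht₂ : NPC.Poly t₂) (hsl₁ : ∀ a, (s₁ a).length = w₁ a) (hsl₂ : ∀ a, (s₂ a).length = w₂ a)
    (hRl₁ : ∀ a u v, u.length = w₁ a → R₁ a u v = true → v.length = w₁ a)
    (hRl₂ : ∀ a u v, u.length = w₂ a → R₂ a u v = true → v.length = w₂ a)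
    (hL : ∀ x, x ∈ L ↔ good (init x) = true ∧
      Relation.ReflTransGen (fun u v => R₁ (init x) u v = true) (s₁ (init x)) (t₁ (init x)) ∧
      ¬ Relation.ReflTransGen (fun u v => R₂ (init x) u v = true) (s₂ (init x)) (t₂ (init x))) :
    InPSPACE L := by
  have hb₁ : NPC.Poly (fun a => blocks (w₁ a) (w₁ a)) := poly_blocks hw₁
  have hb₂ : NPC.Poly (fun a => blocks (w₂ a) (w₂ a)) := poly_blocks hw₂
  refine inPSPACE_of_evq hinit
    (qs := fun x => blocks (w₁ (init x)) (w₁ (init x)) ++
      (blocks (w₂ (init x)) (w₂ (init x))).map fun b => !b) ?_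
    (φ := fun a u => good a && (mat w₁ R₁ s₁ t₁ a (u.take (blocks (w₁ a) (w₁ a)).length) &&
      !(mat w₂ R₂ s₂ t₂ a (u.drop (blocks (w₁ a) (w₁ a)).length)))) ?_ ?_
  · have h1 : NPC.Poly (fun a => blocks (w₁ a) (w₁ a) ++
        (blocks (w₂ a) (w₂ a)).map fun b => !b) :=
      NPC.Poly.append hb₁ (NPC.Poly.map (F := fun _ b => !b) hb₂ (by fun_prop))
    exact h1.comp hinit
  · have hl : NPC.Poly (fun p : α × List Bool => (blocks (w₁ p.1) (w₁ p.1)).length) :=
      (NPC.Poly.length hb₁).comp (NPC.Poly.fst NPC.Poly.id)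
    have h2 : NPC.Poly (fun p : α × List Bool => p.2) := NPC.Poly.snd NPC.Poly.id
    have h1 : NPC.Poly (fun p : α × List Bool => p.1) := NPC.Poly.fst NPC.Poly.id
    have m1 : NPC.Poly (fun p : α × List Bool =>
        mat w₁ R₁ s₁ t₁ p.1 (p.2.take (blocks (w₁ p.1) (w₁ p.1)).length)) :=
      (poly_mat hw₁ hR₁ hs₁ ht₁).comp (f := fun p : α × List Bool =>
        (p.1, p.2.take (blocks (w₁ p.1) (w₁ p.1)).length)) (NPC.Poly.pair h1 (poly_take h2 hl))
    have m2 : NPC.Poly (fun p : α × List Bool =>
        mat w₂ R₂ s₂ t₂ p.1 (p.2.drop (blocks (w₁ p.1) (w₁ p.1)).length)) :=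
      (poly_mat hw₂ hR₂ hs₂ ht₂).comp (f := fun p : α × List Bool =>
        (p.1, p.2.drop (blocks (w₁ p.1) (w₁ p.1)).length)) (NPC.Poly.pair h1 (poly_drop h2 hl))
    exact NPC.Poly.and (hgood.comp h1) (NPC.Poly.and m1 (NPC.Poly.not m2))
  · intro x
    rw [hL, evq_and, Bool.and_eq_true,
      evq_append_and (blocks (w₁ (init x)) (w₁ (init x))) _
        (mat w₁ R₁ s₁ t₁ (init x)) (fun u => !(mat w₂ R₂ s₂ t₂ (init x) u)), evq_not,
      Bool.and_eq_true, evq_mat w₁ R₁ s₁ t₁ hsl₁ hRl₁, Bool.not_eq_true',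
      ← evq_mat w₂ R₂ s₂ t₂ hsl₂ hRl₂, Bool.not_eq_true]

end Poly

end Pool.Agent.Q216.Mealy
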