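import Pool.Agent.Q216.Mealy.Defs
import Pool.Agent.Q216.Mealy.Reach2
import Pool.Agent.H505R3.RS.Mem

set_option autoImplicit false

/-!
# RESET is in `PSPACE`
-/

namespace Pool.Agent.Q216.Mealy

open Pool.Agent.NPC Pool.Agent.H623R2.PS Pool.Agent.H505R3.RS

/-- the codes of automata -/
abbrev Cd : Type := List (List ℕ) × List (List ℕ)

/-- the number of states -/
def NN (c : Cd) : ℕ := (c.1.getD 0 []).length

/-- the test whether a code is a code of an automaton -/
def okm (c : Cd) : Bool :=
  decide (0 < c.1.length) && (decide (c.2.length = c.1.length) && (decide (0 < NN c) &&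
    ((c.1.all fun row => decide (row.length = NN c) && row.all fun x => decide (x < NN c)) &&
      (c.2.all fun row => decide (row.length = NN c) &&
        row.all fun x => decide (x < c.1.length)))))

/-- the number of elements -/
def cnt (u : List Bool) : ℕ := (u.filter fun b => b).length

/-- one letter, or the end -/
def R1 (c : Cd) (u v : List Bool) : Bool :=
  (c.1.any fun row => decide (v = img (NN c) row u)) ||
    (decide (cnt u = 1) && decide (v = List.replicate (NN c) false))

/-- a singleton -/
def one (N q : ℕ) : List Bool := (List.range N).map fun i => decide (i = q)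

/-- the code of a triple -/
def enc3 (N : ℕ) (a : List Bool) (q : ℕ) (b : List Bool) : List Bool :=
  false :: (a ++ (one N q ++ b))

/-- the entry of a table -/
def ent (T : List (List ℕ)) (a q : ℕ) : ℕ := (T.getD a []).getD q 0

/-- choice of the state -/
def R2a (c : Cd) (u v : List Bool) : Bool :=
  decide (u = true :: List.replicate (3 * NN c) false) && (List.range (NN c)).any fun q =>
    decide (v = enc3 (NN c) (List.replicate (NN c) true) q (List.replicate (NN c) true))

/-- one letter -/
def R2b (c : Cd) (u v : List Bool) : Bool :=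
  (List.range (NN c)).any fun q => (List.range c.1.length).any fun a =>
    decide (u = enc3 (NN c) ((u.drop 1).take (NN c)) q (u.drop (1 + 2 * NN c))) &&
      decide (v = enc3 (NN c) (img (NN c) (c.1.getD a []) ((u.drop 1).take (NN c)))
        (ent c.1 a q) (img (NN c) (c.1.getD (ent c.2 a q) []) (u.drop (1 + 2 * NN c))))

/-- the end -/
def R2c (c : Cd) (u v : List Bool) : Bool :=
  ((List.range (NN c)).any fun q =>
    decide (u = enc3 (NN c) ((u.drop 1).take (NN c)) q (u.drop (1 + 2 * NN c)))) &&
      (decide (cnt ((u.drop 1).take (NN c)) = 1) && (decide (cnt (u.drop (1 + 2 * NN c)) ≠ 1) &&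
        decide (v = true :: List.replicate (3 * NN c) true)))

/-- the second relation -/
def R2 (c : Cd) (u v : List Bool) : Bool := R2a c u v || (R2b c u v || R2c c u v)

/-! ### Polynomial time -/

theorem uPoly_NN : UPoly NN := UPoly.length (by fun_prop)

theorem poly_okm : NPC.Poly okm := by
  have hN : NPC.Poly NN := uPoly_NN.toPoly
  have h1 : NPC.Poly (fun p : Cd × List ℕ => p.2.all fun x => decide (x < NN p.1)) :=
    NPC.Poly.all (l := fun p : Cd × List ℕ => p.2) (p := fun p x => decide (x < NN p.1))
      (by fun_prop) (by fun_prop)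
  have h1' : NPC.Poly (fun p : Cd × List ℕ => decide (p.2.length = NN p.1)) :=
    NPC.Poly.decide_eq (by fun_prop) (hN.comp (NPC.Poly.fst NPC.Poly.id))
  have h2 : NPC.Poly (fun c : Cd => c.1.all fun row =>
      decide (row.length = NN c) && row.all fun x => decide (x < NN c)) :=
    NPC.Poly.all (l := fun c : Cd => c.1) (p := fun c row =>
      decide (row.length = NN c) && row.all fun x => decide (x < NN c))
      (by fun_prop) (NPC.Poly.and h1' h1)
  have h3 : NPC.Poly (fun p : Cd × List ℕ => p.2.all fun x => decide (x < p.1.1.length)) :=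
    NPC.Poly.all (l := fun p : Cd × List ℕ => p.2) (p := fun p x => decide (x < p.1.1.length))
      (by fun_prop) (by fun_prop)
  have h4 : NPC.Poly (fun c : Cd => c.2.all fun row =>
      decide (row.length = NN c) && row.all fun x => decide (x < c.1.length)) :=
    NPC.Poly.all (l := fun c : Cd => c.2) (p := fun c row =>
      decide (row.length = NN c) && row.all fun x => decide (x < c.1.length))
      (by fun_prop) (NPC.Poly.and h1' h3)
  unfold okm
  exact NPC.Poly.and (by fun_prop) (NPC.Poly.and (by fun_prop) (NPC.Poly.and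
    (NPC.Poly.decide_lt (NPC.Poly.const 0) hN) (NPC.Poly.and h2 h4)))

section

variable {α : Type} [TEnc α]

theorem poly_cnt {u : α → List Bool} (hu : NPC.Poly u) : NPC.Poly (fun a => cnt (u a)) := by
  unfold cnt
  exact NPC.Poly.length (NPC.Poly.filter (l := u) (p := fun _ b => b) hu (by fun_prop))

theorem poly_one {N q : α → ℕ} (hN : UPoly N) (hq : NPC.Poly q) :
    NPC.Poly (fun a => one (N a) (q a)) := by
  unfold one
  exact NPC.Poly.map (F := fun a i => decide (i = q a)) hN.range
    (NPC.Poly.decide_eq (NPC.Poly.snd NPC.Poly.id) (hq.comp (NPC.Poly.fst NPC.Poly.id)))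

theorem poly_enc3 {N q : α → ℕ} {a b : α → List Bool} (hN : UPoly N) (ha : NPC.Poly a)
    (hq : NPC.Poly q) (hb : NPC.Poly b) :
    NPC.Poly (fun x => enc3 (N x) (a x) (q x) (b x)) := by
  unfold enc3
  exact NPC.Poly.cons (NPC.Poly.const false) (NPC.Poly.append ha
    (NPC.Poly.append (poly_one hN hq) hb))

theorem poly_ent {T : α → List (List ℕ)} {a q : α → ℕ} (hT : NPC.Poly T) (ha : NPC.Poly a)
    (hq : NPC.Poly q) : NPC.Poly (fun x => ent (T x) (a x) (q x)) := by
  unfold ent
  fun_prop

end

theorem poly_R1 : NPC.Poly (fun p : Cd × List Bool × List Bool => R1 p.1 p.2.1 p.2.2) := by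
  unfold R1
  refine NPC.Poly.or ?_ ?_
  · refine NPC.Poly.any (l := fun p : Cd × List Bool × List Bool => p.1.1)
      (p := fun p row => decide (p.2.2 = img (NN p.1) row p.2.1)) (by fun_prop) ?_
    have h1 : UPoly (fun p : (Cd × List Bool × List Bool) × List ℕ => NN p.1.1) :=
      uPoly_NN.comp (NPC.Poly.fst (NPC.Poly.fst NPC.Poly.id))
    exact NPC.Poly.decide_eq (by fun_prop) (poly_img h1 (by fun_prop) (by fun_prop))
  · have h1 : UPoly (fun p : Cd × List Bool × List Bool => NN p.1) :=
      uPoly_NN.comp (NPC.Poly.fst NPC.Poly.id)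
    exact NPC.Poly.and (NPC.Poly.decide_eq (poly_cnt (by fun_prop)) (NPC.Poly.const 1))
      (NPC.Poly.decide_eq (by fun_prop) (poly_replicate h1 false))

theorem poly_R2 : NPC.Poly (fun p : Cd × List Bool × List Bool => R2 p.1 p.2.1 p.2.2) := by
  have hN : UPoly (fun p : Cd × List Bool × List Bool => NN p.1) :=
    uPoly_NN.comp (NPC.Poly.fst NPC.Poly.id)
  have h3N : UPoly (fun p : Cd × List Bool × List Bool => 3 * NN p.1) :=
    UPoly.mul (UPoly.const 3) hN
  have hu : NPC.Poly (fun p : Cd × List Bool × List Bool => p.2.1) := by fun_prop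
  have hv : NPC.Poly (fun p : Cd × List Bool × List Bool => p.2.2) := by fun_prop
  have hc : NPC.Poly (fun p : Cd × List Bool × List Bool => p.1) := by fun_prop
  have hNp := hN.toPoly
  have hS1 : NPC.Poly (fun p : Cd × List Bool × List Bool => (p.2.1.drop 1).take (NN p.1)) :=
    poly_take (poly_drop hu (NPC.Poly.const 1)) hNp
  have hS2 : NPC.Poly (fun p : Cd × List Bool × List Bool => p.2.1.drop (1 + 2 * NN p.1)) :=
    poly_drop hu (NPC.Poly.add (NPC.Poly.const 1) (NPC.Poly.mul (NPC.Poly.const 2) hNp))
  have f1 : NPC.Poly (fun p : (Cd × List Bool × List Bool) × ℕ => p.1) := by fun_prop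
  have s1 : NPC.Poly (fun p : (Cd × List Bool × List Bool) × ℕ => p.2) := by fun_prop
  have f2 : NPC.Poly (fun p : ((Cd × List Bool × List Bool) × ℕ) × ℕ => p.1.1) := by fun_prop
  have q2 : NPC.Poly (fun p : ((Cd × List Bool × List Bool) × ℕ) × ℕ => p.1.2) := by fun_prop
  have a2 : NPC.Poly (fun p : ((Cd × List Bool × List Bool) × ℕ) × ℕ => p.2) := by fun_prop
  unfold R2
  refine NPC.Poly.or ?_ (NPC.Poly.or ?_ ?_)
  · unfold R2a
    refine NPC.Poly.and (NPC.Poly.decide_eq hu (NPC.Poly.cons (NPC.Poly.const true)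
      (poly_replicate h3N false))) ?_
    refine NPC.Poly.any (l := fun p : Cd × List Bool × List Bool => List.range (NN p.1))
      (p := fun p q => decide (p.2.2 = enc3 (NN p.1) (List.replicate (NN p.1) true) q
        (List.replicate (NN p.1) true))) hN.range ?_
    exact NPC.Poly.decide_eq (hv.comp f1) (poly_enc3 (hN.comp f1)
      (poly_replicate (hN.comp f1) true) s1 (poly_replicate (hN.comp f1) true))
  · unfold R2b
    refine NPC.Poly.any (l := fun p : Cd × List Bool × List Bool => List.range (NN p.1))
      (p := fun p q => (List.range p.1.1.length).any fun a =>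
        decide (p.2.1 = enc3 (NN p.1) ((p.2.1.drop 1).take (NN p.1)) q
          (p.2.1.drop (1 + 2 * NN p.1))) &&
        decide (p.2.2 = enc3 (NN p.1) (img (NN p.1) (p.1.1.getD a [])
          ((p.2.1.drop 1).take (NN p.1))) (ent p.1.1 a q)
          (img (NN p.1) (p.1.1.getD (ent p.1.2 a q) []) (p.2.1.drop (1 + 2 * NN p.1)))))
      hN.range ?_
    refine NPC.Poly.any (l := fun p : (Cd × List Bool × List Bool) × ℕ =>
        List.range p.1.1.1.length)
      (p := fun p a =>
        decide (p.1.2.1 = enc3 (NN p.1.1) ((p.1.2.1.drop 1).take (NN p.1.1)) p.2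
          (p.1.2.1.drop (1 + 2 * NN p.1.1))) &&
        decide (p.1.2.2 = enc3 (NN p.1.1) (img (NN p.1.1) (p.1.1.1.getD a [])
          ((p.1.2.1.drop 1).take (NN p.1.1))) (ent p.1.1.1 a p.2)
          (img (NN p.1.1) (p.1.1.1.getD (ent p.1.1.2 a p.2) [])
            (p.1.2.1.drop (1 + 2 * NN p.1.1))))) ?_ ?_
    · exact (UPoly.length (by fun_prop)).range
    · have hT1 : NPC.Poly (fun p : ((Cd × List Bool × List Bool) × ℕ) × ℕ => p.1.1.1.1) := by
        fun_prop
      have hT2 : NPC.Poly (fun p : ((Cd × List Bool × List Bool) × ℕ) × ℕ => p.1.1.1.2) := by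
        fun_prop
      have hrow : NPC.Poly (fun p : ((Cd × List Bool × List Bool) × ℕ) × ℕ =>
          p.1.1.1.1.getD p.2 []) := by fun_prop
      have he1 := poly_ent hT1 a2 q2
      have he2 := poly_ent hT2 a2 q2
      have hrow2 : NPC.Poly (fun p : ((Cd × List Bool × List Bool) × ℕ) × ℕ =>
          p.1.1.1.1.getD (ent p.1.1.1.2 p.2 p.1.2) []) :=
        NPC.Poly.getD hT1 he2 (NPC.Poly.const [])
      exact NPC.Poly.and (NPC.Poly.decide_eq (hu.comp f2) (poly_enc3 (hN.comp f2)
        (hS1.comp f2) q2 (hS2.comp f2)))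
        (NPC.Poly.decide_eq (hv.comp f2) (poly_enc3 (hN.comp f2)
          (poly_img (hN.comp f2) hrow (hS1.comp f2)) he1
          (poly_img (hN.comp f2) hrow2 (hS2.comp f2))))
  · unfold R2c
    refine NPC.Poly.and ?_ (NPC.Poly.and (NPC.Poly.decide_eq (poly_cnt hS1) (NPC.Poly.const 1))
      (NPC.Poly.and (NPC.Poly.decide_not (NPC.Poly.decide_eq (poly_cnt hS2) (NPC.Poly.const 1)))
        (NPC.Poly.decide_eq hv (NPC.Poly.cons (NPC.Poly.const true)
          (poly_replicate h3N true)))))
    refine NPC.Poly.any (l := fun p : Cd × List Bool × List Bool => List.range (NN p.1))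
      (p := fun p q => decide (p.2.1 = enc3 (NN p.1) ((p.2.1.drop 1).take (NN p.1)) q
        (p.2.1.drop (1 + 2 * NN p.1)))) hN.range ?_
    exact NPC.Poly.decide_eq (hu.comp f1) (poly_enc3 (hN.comp f1) (hS1.comp f1) s1 (hS2.comp f1))

/-! ### Lengths -/

theorem img_length (n : ℕ) (row : List ℕ) (u : List Bool) : (img n row u).length = n := by
  simp [img]

theorem one_length (N q : ℕ) : (one N q).length = N := by simp [one]

theorem enc3_length (N : ℕ) (a : List Bool) (q : ℕ) (b : List Bool) (ha : a.length = N)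
    (hb : b.length = N) : (enc3 N a q b).length = 3 * N + 1 := by
  simp only [enc3, List.length_cons, List.length_append, one_length, ha, hb]
  omega

theorem enc3_fst {N : ℕ} {a : List Bool} {q : ℕ} {b : List Bool} (ha : a.length = N) :
    ((enc3 N a q b).drop 1).take N = a := by
  simp [enc3, ← ha]

theorem enc3_snd {N : ℕ} {a : List Bool} {q : ℕ} {b : List Bool} (ha : a.length = N) :
    (enc3 N a q b).drop (1 + 2 * N) = b := by
  have h : enc3 N a q b = (false :: (a ++ one N q)) ++ b := by simp [enc3]
  rw [h, List.drop_append_of_le_length (by simp [one_length, ha]; omega)]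
  rw [List.drop_of_length_le (by simp [one_length, ha]; omega)]
  rfl

theorem one_inj {N q q' : ℕ} (hq : q < N) (h : one N q = one N q') : q = q' := by
  have h1 : (one N q)[q]'(by rw [one_length]; exact hq) =
      (one N q')[q]'(by rw [one_length]; exact hq) := by
    simp only [h]
  simpa [one] using h1

theorem enc3_inj {N : ℕ} {a a' : List Bool} {q q' : ℕ} {b b' : List Bool} (ha : a.length = N)
    (ha' : a'.length = N) (hq : q < N) (h : enc3 N a q b = enc3 N a' q' b') :
    a = a' ∧ q = q' ∧ b = b' := by
  unfold enc3 at h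
  have h1 := (List.cons.inj h).2
  obtain ⟨h2, h3⟩ := List.append_inj h1 (ha.trans ha'.symm)
  obtain ⟨h4, h5⟩ := List.append_inj h3 (by rw [one_length, one_length])
  exact ⟨h2, one_inj hq h4, h5⟩

end Pool.Agent.Q216.Mealy
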