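import Pool.Agent.Q216.Mealy.Mem

set_option autoImplicit false

/-!
# RESET is in `PSPACE`: correctness
-/

namespace Pool.Agent.Q216.Mealy

open Pool.Agent.NPC Pool.Agent.H623R2.PS Pool.Agent.H505R3.RS

variable (A : Mealy)

theorem code1_getD (a : Fin (A.m + 1)) : A.code.1.getD a.val [] =
    (List.finRange (A.n + 1)).map fun q => (A.δ q a).val := by
  unfold Mealy.code
  simp only
  rw [List.getD_eq_getElem _ _ (by simp; omega)]
  simp

theorem code2_getD (a : Fin (A.m + 1)) : A.code.2.getD a.val [] =
    (List.finRange (A.n + 1)).map fun q => (A.out q a).val := by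
  unfold Mealy.code
  simp only
  rw [List.getD_eq_getElem _ _ (by simp; omega)]
  simp

theorem code1_length : A.code.1.length = A.m + 1 := by simp [Mealy.code]

theorem code2_length : A.code.2.length = A.m + 1 := by simp [Mealy.code]

theorem NN_code : NN A.code = A.n + 1 := by
  unfold NN
  have := code1_getD A 0
  rw [show ((0 : Fin (A.m + 1)) : ℕ) = 0 from rfl] at this
  rw [this]
  simp

theorem ent1 (a : Fin (A.m + 1)) (q : Fin (A.n + 1)) :
    ent A.code.1 a.val q.val = (A.δ q a).val := by
  unfold ent
  rw [code1_getD, List.getD_eq_getElem _ _ (by simp; omega)]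
  simp

theorem ent2 (a : Fin (A.m + 1)) (q : Fin (A.n + 1)) :
    ent A.code.2 a.val q.val = (A.out q a).val := by
  unfold ent
  rw [code2_getD, List.getD_eq_getElem _ _ (by simp; omega)]
  simp

theorem img_code (a : Fin (A.m + 1)) (S : Finset (Fin (A.n + 1))) :
    img (A.n + 1) (A.code.1.getD a.val []) (vec S) = vec (S.image fun q => A.δ q a) := by
  rw [code1_getD]
  exact img_vec (fun q => A.δ q a) S

theorem cnt_vec {n : ℕ} (S : Finset (Fin n)) : cnt (vec S) = S.card := vec_count S

theorem run_snoc (q : Fin (A.n + 1)) (u : List (Fin (A.m + 1))) (a : Fin (A.m + 1)) :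
    A.run q (u ++ [a]) = A.δ (A.run q u) a := by
  unfold Mealy.run
  rw [List.foldl_append]
  rfl

theorem image_snoc' (u : List (Fin (A.m + 1))) (a : Fin (A.m + 1)) :
    A.image (u ++ [a]) = (A.image u).image fun q => A.δ q a := by
  unfold Mealy.image
  rw [Finset.image_image]
  congr 1
  funext q
  exact run_snoc A q u a

theorem trans_snoc (q : Fin (A.n + 1)) (u : List (Fin (A.m + 1))) (a : Fin (A.m + 1)) :
    A.trans q (u ++ [a]) = A.trans q u ++ [A.out (A.run q u) a] := by
  induction u generalizing q with
  | nil => rfl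
  | cons b u ih =>
    show A.out q b :: A.trans (A.δ q b) (u ++ [a]) = _
    rw [ih]
    rfl

theorem image_nil : A.image [] = Finset.univ := by
  unfold Mealy.image
  ext q
  simp [Mealy.run]

theorem image_nonempty (u : List (Fin (A.m + 1))) : (A.image u).Nonempty :=
  ⟨_, Finset.mem_image_of_mem _ (Finset.mem_univ 0)⟩

/-! ### The first relation -/

theorem any_row (c : List (List ℕ)) (P : List ℕ → Bool) :
    c.any P = true ↔ ∃ a < c.length, P (c.getD a []) = true := by
  rw [List.any_eq_true]
  constructor
  · rintro ⟨r, hr, h⟩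
    obtain ⟨i, hi, rfl⟩ := List.getElem_of_mem hr
    refine ⟨i, hi, ?_⟩
    rwa [List.getD_eq_getElem _ _ hi]
  · rintro ⟨a, ha, h⟩
    rw [List.getD_eq_getElem _ _ ha] at h
    exact ⟨_, List.getElem_mem ha, h⟩

theorem R1_iff (u v : List Bool) : R1 A.code u v = true ↔
    (∃ a : Fin (A.m + 1), v = img (A.n + 1) (A.code.1.getD a.val []) u) ∨
      (cnt u = 1 ∧ v = List.replicate (A.n + 1) false) := by
  unfold R1
  rw [Bool.or_eq_true, any_row, Bool.and_eq_true, decide_eq_true_eq, decide_eq_true_eq, NN_code,
    code1_length]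
  refine or_congr ?_ Iff.rfl
  constructor
  · rintro ⟨a, ha, h⟩
    exact ⟨⟨a, ha⟩, of_decide_eq_true h⟩
  · rintro ⟨a, h⟩
    exact ⟨a.val, a.2, decide_eq_true h⟩

theorem cnt_replicate_false (n : ℕ) : cnt (List.replicate n false) = 0 := by
  unfold cnt
  rw [List.filter_eq_nil_iff.2 (by
    intro a ha
    rw [List.eq_of_mem_replicate ha]
    simp)]
  rfl

theorem img_false (n : ℕ) (row : List ℕ) :
    img n row (List.replicate n false) = List.replicate n false := by
  apply List.ext_getElem
  · simp [img]
  · intro i h1 h2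
    rw [img_getElem, List.getElem_replicate, List.any_eq_false]
    intro q hq
    rw [List.mem_range] at hq
    rw [List.getD_eq_getElem _ _ (by simpa using hq), List.getElem_replicate]
    simp

theorem reach1 : Relation.ReflTransGen (fun u v => R1 A.code u v = true)
    (List.replicate (A.n + 1) true) (List.replicate (A.n + 1) false) ↔ ∃ w, A.Syn w := by
  constructor
  · intro h
    have key : ∀ v, Relation.ReflTransGen (fun u v => R1 A.code u v = true)
        (List.replicate (A.n + 1) true) v →
        (∃ w, v = vec (A.image w)) ∨ (v = List.replicate (A.n + 1) false ∧ ∃ w, A.Syn w) := by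
      intro v hv
      induction hv with
      | refl => exact Or.inl ⟨[], by rw [image_nil, vec_univ]⟩
      | @tail u v _ huv ih =>
        rw [R1_iff] at huv
        rcases ih with ⟨w, rfl⟩ | ⟨rfl, hw⟩
        · rcases huv with ⟨a, rfl⟩ | ⟨h1, rfl⟩
          · exact Or.inl ⟨w ++ [a], by rw [img_code, image_snoc']⟩
          · rw [cnt_vec] at h1
            exact Or.inr ⟨rfl, w, h1⟩
        · rcases huv with ⟨a, rfl⟩ | ⟨h1, rfl⟩
          · exact Or.inr ⟨img_false _ _, hw⟩
          · exact Or.inr ⟨rfl, hw⟩
    rcases key _ h with ⟨w, hw⟩ | ⟨-, hw⟩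
    · exfalso
      have h1 := congrArg cnt hw
      rw [cnt_replicate_false, cnt_vec] at h1
      have h2 := Finset.card_pos.2 (image_nonempty A w)
      omega
    · exact hw
  · rintro ⟨w, hw⟩
    have key : ∀ u, Relation.ReflTransGen (fun u v => R1 A.code u v = true)
        (List.replicate (A.n + 1) true) (vec (A.image u)) := by
      intro u
      induction u using List.reverseRecOn with
      | nil => rw [image_nil, vec_univ]
      | append_singleton u a ih =>
        refine ih.tail ?_
        rw [R1_iff]
        exact Or.inl ⟨a, by rw [img_code, image_snoc']⟩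
    refine (key w).tail ?_
    rw [R1_iff, cnt_vec]
    exact Or.inr ⟨hw, rfl⟩

/-! ### The second relation -/

/-- the start -/
def st0 (c : Cd) : List Bool := true :: List.replicate (3 * NN c) false

/-- the target -/
def tg0 (c : Cd) : List Bool := true :: List.replicate (3 * NN c) true

theorem R2a_iff (u v : List Bool) : R2a A.code u v = true ↔ u = st0 A.code ∧
    ∃ q : Fin (A.n + 1), v = enc3 (A.n + 1) (vec (Finset.univ : Finset (Fin (A.n + 1)))) q.val
      (vec (Finset.univ : Finset (Fin (A.n + 1)))) := by
  unfold R2a st0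
  rw [Bool.and_eq_true, decide_eq_true_eq, List.any_eq_true, NN_code, vec_univ]
  refine and_congr Iff.rfl ?_
  constructor
  · rintro ⟨q, hq, h⟩
    exact ⟨⟨q, List.mem_range.1 hq⟩, of_decide_eq_true h⟩
  · rintro ⟨q, h⟩
    exact ⟨q.val, List.mem_range.2 q.2, decide_eq_true h⟩

theorem R2b_iff (S1 S2 : Finset (Fin (A.n + 1))) (q : Fin (A.n + 1)) (v : List Bool) :
    R2b A.code (enc3 (A.n + 1) (vec S1) q.val (vec S2)) v = true ↔
    ∃ a : Fin (A.m + 1), v = enc3 (A.n + 1) (vec (S1.image fun q => A.δ q a)) (A.δ q a).val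
      (vec (S2.image fun p => A.δ p (A.out q a))) := by
  unfold R2b
  rw [NN_code, code1_length, enc3_fst (vec_length S1), enc3_snd (vec_length S1),
    List.any_eq_true]
  constructor
  · rintro ⟨q', hq', h⟩
    rw [List.any_eq_true] at h
    obtain ⟨a, ha, h⟩ := h
    rw [Bool.and_eq_true, decide_eq_true_eq, decide_eq_true_eq] at h
    obtain ⟨h1, h2⟩ := h
    obtain ⟨-, rfl, -⟩ := enc3_inj (vec_length S1) (vec_length S1) q.2 h1
    refine ⟨⟨a, List.mem_range.1 ha⟩, ?_⟩
    rw [h2]
    have e1 := ent1 A ⟨a, List.mem_range.1 ha⟩ q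
    have e2 := ent2 A ⟨a, List.mem_range.1 ha⟩ q
    simp only at e1 e2
    rw [e1, e2]
    have e3 := img_code A ⟨a, List.mem_range.1 ha⟩ S1
    simp only at e3
    rw [e3, img_code]
  · rintro ⟨a, rfl⟩
    refine ⟨q.val, List.mem_range.2 q.2, ?_⟩
    rw [List.any_eq_true]
    refine ⟨a.val, List.mem_range.2 a.2, ?_⟩
    rw [Bool.and_eq_true, decide_eq_true_eq, decide_eq_true_eq]
    refine ⟨rfl, ?_⟩
    rw [ent1, ent2, img_code, img_code]

theorem R2c_iff (S1 S2 : Finset (Fin (A.n + 1))) (q : Fin (A.n + 1)) (v : List Bool) :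
    R2c A.code (enc3 (A.n + 1) (vec S1) q.val (vec S2)) v = true ↔
    S1.card = 1 ∧ S2.card ≠ 1 ∧ v = tg0 A.code := by
  unfold R2c tg0
  rw [NN_code, enc3_fst (vec_length S1), enc3_snd (vec_length S1), cnt_vec, cnt_vec,
    Bool.and_eq_true, Bool.and_eq_true, Bool.and_eq_true, decide_eq_true_eq, decide_eq_true_eq,
    decide_eq_true_eq]
  constructor
  · exact fun h => h.2
  · intro h
    refine ⟨?_, h⟩
    rw [List.any_eq_true]
    exact ⟨q.val, List.mem_range.2 q.2, decide_eq_true rfl⟩

theorem R2b_true (c : Cd) (u v : List Bool) : R2b c (true :: u) v = false := by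
  unfold R2b
  rw [List.any_eq_false]
  intro q _
  rw [Bool.not_eq_true, List.any_eq_false]
  intro a _
  rw [Bool.not_eq_true, Bool.and_eq_false_iff]
  left
  rw [decide_eq_false_iff_not]
  intro h
  unfold enc3 at h
  exact absurd (List.cons.inj h).1 (by simp)

theorem R2c_true (c : Cd) (u v : List Bool) : R2c c (true :: u) v = false := by
  unfold R2c
  rw [Bool.and_eq_false_iff]
  left
  rw [List.any_eq_false]
  intro q _
  rw [Bool.not_eq_true, decide_eq_false_iff_not]
  intro h
  unfold enc3 at h
  exact absurd (List.cons.inj h).1 (by simp)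

theorem enc3_ne (N : ℕ) (a : List Bool) (q : ℕ) (b u : List Bool) :
    enc3 N a q b ≠ true :: u := by
  intro h
  unfold enc3 at h
  exact absurd (List.cons.inj h).1 (by simp)

theorem tg0_ne : tg0 A.code ≠ st0 A.code := by
  intro h
  unfold tg0 st0 at h
  rw [NN_code] at h
  have h1 := (List.cons.inj h).2
  have h2 : 3 * (A.n + 1) = (3 * A.n + 2) + 1 := by ring
  rw [h2, List.replicate_succ, List.replicate_succ] at h1
  exact absurd (List.cons.inj h1).1 (by simp)

theorem reach2 : Relation.ReflTransGen (fun u v => R2 A.code u v = true)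
    (st0 A.code) (tg0 A.code) ↔ ∃ q u, A.Syn u ∧ ¬ A.Syn (A.trans q u) := by
  constructor
  · intro h
    have key : ∀ v, Relation.ReflTransGen (fun u v => R2 A.code u v = true) (st0 A.code) v →
        v = st0 A.code ∨ (∃ (q : Fin (A.n + 1)) (u : List (Fin (A.m + 1))),
          v = enc3 (A.n + 1) (vec (A.image u)) (A.run q u).val (vec (A.image (A.trans q u)))) ∨
        (v = tg0 A.code ∧ ∃ q u, A.Syn u ∧ ¬ A.Syn (A.trans q u)) := by
      intro v hv
      induction hv with
      | refl => exact Or.inl rfl
      | @tail u v _ huv ih =>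
        right
        unfold R2 at huv
        rw [Bool.or_eq_true, Bool.or_eq_true] at huv
        rcases ih with rfl | ⟨q, w, rfl⟩ | ⟨rfl, hbad⟩
        · rcases huv with huv | huv | huv
          · rw [R2a_iff] at huv
            obtain ⟨-, q, rfl⟩ := huv
            refine Or.inl ⟨q, [], ?_⟩
            show _ = enc3 (A.n + 1) (vec (A.image [])) q.val (vec (A.image []))
            rw [image_nil]
          · rw [st0, R2b_true] at huv
            cases huv
          · rw [st0, R2c_true] at huv
            cases huv
        · rcases huv with huv | huv | huv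
          · rw [R2a_iff] at huv
            exact absurd huv.1 (enc3_ne _ _ _ _ _)
          · rw [R2b_iff] at huv
            obtain ⟨a, rfl⟩ := huv
            refine Or.inl ⟨q, w ++ [a], ?_⟩
            rw [image_snoc', run_snoc, trans_snoc, image_snoc']
          · rw [R2c_iff] at huv
            exact Or.inr ⟨huv.2.2, q, w, huv.1, huv.2.1⟩
        · rcases huv with huv | huv | huv
          · rw [R2a_iff] at huv
            exact absurd huv.1 (tg0_ne A)
          · rw [tg0, R2b_true] at huv
            cases huv
          · rw [tg0, R2c_true] at huv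
            cases huv
    rcases key _ h with h | ⟨q, u, h⟩ | ⟨-, h⟩
    · exact absurd h (tg0_ne A)
    · exact absurd h.symm (enc3_ne _ _ _ _ _)
    · exact h
  · rintro ⟨q, u, h1, h2⟩
    have key : ∀ w, Relation.ReflTransGen (fun u v => R2 A.code u v = true) (st0 A.code)
        (enc3 (A.n + 1) (vec (A.image w)) (A.run q w).val (vec (A.image (A.trans q w)))) := by
      intro w
      induction w using List.reverseRecOn with
      | nil =>
        apply Relation.ReflTransGen.single
        unfold R2
        rw [Bool.or_eq_true, R2a_iff]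
        left
        refine ⟨rfl, q, ?_⟩
        show enc3 (A.n + 1) (vec (A.image [])) q.val (vec (A.image [])) = _
        rw [image_nil]
      | append_singleton w a ih =>
        refine ih.tail ?_
        unfold R2
        rw [Bool.or_eq_true, Bool.or_eq_true, R2b_iff]
        right; left
        refine ⟨a, ?_⟩
        rw [image_snoc', run_snoc, trans_snoc, image_snoc']
    refine (key u).tail ?_
    unfold R2
    rw [Bool.or_eq_true, Bool.or_eq_true, R2c_iff]
    exact Or.inr (Or.inr ⟨h1, h2, rfl⟩)

/-! ### Codes -/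

theorem okm_code : okm A.code = true := by
  unfold okm
  rw [Bool.and_eq_true, Bool.and_eq_true, Bool.and_eq_true, Bool.and_eq_true, List.all_eq_true,
    List.all_eq_true, decide_eq_true_eq, decide_eq_true_eq, decide_eq_true_eq, code1_length,
    code2_length, NN_code]
  refine ⟨Nat.succ_pos _, rfl, Nat.succ_pos _, ?_, ?_⟩
  · intro row hrow
    unfold Mealy.code at hrow
    simp only [List.mem_map, List.mem_finRange, true_and] at hrow
    obtain ⟨a, rfl⟩ := hrow
    rw [Bool.and_eq_true, decide_eq_true_eq, List.all_eq_true]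
    refine ⟨by simp, ?_⟩
    intro x hx
    simp only [List.mem_map, List.mem_finRange, true_and] at hx
    obtain ⟨q, rfl⟩ := hx
    exact decide_eq_true (A.δ q a).2
  · intro row hrow
    unfold Mealy.code at hrow
    simp only [List.mem_map, List.mem_finRange, true_and] at hrow
    obtain ⟨a, rfl⟩ := hrow
    rw [Bool.and_eq_true, decide_eq_true_eq, List.all_eq_true]
    refine ⟨by simp, ?_⟩
    intro x hx
    simp only [List.mem_map, List.mem_finRange, true_and] at hx
    obtain ⟨q, rfl⟩ := hx
    exact decide_eq_true (A.out q a).2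

theorem exists_mealy {c : Cd} (h : okm c = true) : ∃ A : Mealy, A.code = c := by
  obtain ⟨D, O⟩ := c
  unfold okm at h
  simp only [Bool.and_eq_true, List.all_eq_true, decide_eq_true_eq] at h
  obtain ⟨h1, h2, h3, h4, h5⟩ := h
  obtain ⟨m, hm⟩ := Nat.exists_eq_succ_of_ne_zero (Nat.pos_iff_ne_zero.1 h1)
  obtain ⟨n, hn⟩ := Nat.exists_eq_succ_of_ne_zero (Nat.pos_iff_ne_zero.1 h3)
  have hm' : D.length = m + 1 := hm
  have hn' : NN (D, O) = n + 1 := hn
  rw [hn'] at h4 h5
  rw [hm'] at h5 h2
  have a1 : ∀ a : Fin (m + 1), (D[a.val]'(by rw [hm']; exact a.2)).length = n + 1 :=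
    fun a => (h4 _ (List.getElem_mem _)).1
  have a2 : ∀ a : Fin (m + 1), (O[a.val]'(by rw [h2]; exact a.2)).length = n + 1 :=
    fun a => (h5 _ (List.getElem_mem _)).1
  refine ⟨⟨n, m, fun q a => ⟨(D[a.val]'(by rw [hm']; exact a.2))[q.val]'(by
      rw [a1 a]; exact q.2), (h4 _ (List.getElem_mem _)).2 _ (List.getElem_mem _)⟩,
    fun q a => ⟨(O[a.val]'(by rw [h2]; exact a.2))[q.val]'(by
      rw [a2 a]; exact q.2), (h5 _ (List.getElem_mem _)).2 _ (List.getElem_mem _)⟩⟩, ?_⟩
  unfold Mealy.code
  refine Prod.ext ?_ ?_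
  · apply List.ext_getElem
    · simp [hm']
    · intro i g1 g2
      rw [List.getElem_map]
      apply List.ext_getElem
      · have := (h4 D[i] (List.getElem_mem _)).1
        simp [this]
      · intro j g3 g4
        simp
  · apply List.ext_getElem
    · simp [h2]
    · intro i g1 g2
      rw [List.getElem_map]
      apply List.ext_getElem
      · have := (h5 O[i] (List.getElem_mem _)).1
        simp [this]
      · intro j g3 g4
        simp

/-- the automaton coded by the input, or a bad code -/
def init (x : List Bool) : Cd := (unbits Cd x).getD ([], [])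

theorem R1_length (c : Cd) (u v : List Bool) (h : R1 c u v = true) : v.length = NN c := by
  unfold R1 at h
  rw [Bool.or_eq_true, List.any_eq_true] at h
  rcases h with ⟨row, -, h⟩ | h
  · rw [decide_eq_true_eq] at h
    rw [h, img_length]
  · rw [Bool.and_eq_true, decide_eq_true_eq, decide_eq_true_eq] at h
    rw [h.2, List.length_replicate]

theorem R2_length (c : Cd) (u v : List Bool) (h : R2 c u v = true) :
    v.length = 3 * NN c + 1 := by
  unfold R2 at h
  rw [Bool.or_eq_true, Bool.or_eq_true] at h
  rcases h with h | h | h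
  · unfold R2a at h
    rw [Bool.and_eq_true, List.any_eq_true] at h
    obtain ⟨-, q, -, h⟩ := h
    rw [decide_eq_true_eq] at h
    rw [h, enc3_length _ _ _ _ (by simp) (by simp)]
  · unfold R2b at h
    rw [List.any_eq_true] at h
    obtain ⟨q, -, h⟩ := h
    rw [List.any_eq_true] at h
    obtain ⟨a, -, h⟩ := h
    rw [Bool.and_eq_true, decide_eq_true_eq, decide_eq_true_eq] at h
    rw [h.2, enc3_length _ _ _ _ (img_length _ _ _) (img_length _ _ _)]
  · unfold R2c at h
    rw [Bool.and_eq_true, Bool.and_eq_true, Bool.and_eq_true, decide_eq_true_eq,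
      decide_eq_true_eq, decide_eq_true_eq] at h
    rw [h.2.2.2]
    simp

theorem member : InPSPACE (lang IsReset) := by
  have hinit : NPC.Poly init := NPC.Poly.optGetD poly_unbits (NPC.Poly.const _)
  have hN : UPoly NN := uPoly_NN
  have h3N : UPoly (fun c => 3 * NN c) := UPoly.mul (UPoly.const 3) hN
  refine inPSPACE_of_two hinit (good := okm) poly_okm (w₁ := NN) (w₂ := fun c => 3 * NN c + 1)
    hN (UPoly.add h3N (UPoly.const 1)) (R₁ := R1) (R₂ := R2) poly_R1 poly_R2
    (s₁ := fun c => List.replicate (NN c) true) (t₁ := fun c => List.replicate (NN c) false)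
    (s₂ := st0) (t₂ := tg0) (poly_replicate hN true) (poly_replicate hN false)
    (NPC.Poly.cons (NPC.Poly.const true) (poly_replicate h3N false))
    (NPC.Poly.cons (NPC.Poly.const true) (poly_replicate h3N true))
    (fun c => by simp) (fun c => by simp [st0]) (fun c u v _ h => R1_length c u v h)
    (fun c u v _ h => R2_length c u v h) ?_
  intro x
  constructor
  · rintro ⟨A, rfl, h1, h2⟩
    have h3 : init (bits A) = A.code := by
      unfold init
      have : bits A = bits A.code := rfl
      rw [this, unbits_bits, Option.getD_some]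
    rw [h3]
    refine ⟨okm_code A, ?_, ?_⟩
    · rw [NN_code, reach1]
      exact h1
    · rw [reach2]
      rintro ⟨q, u, h4, h5⟩
      exact h5 (h2 q u h4)
  · rintro ⟨h1, h2, h3⟩
    obtain ⟨A, hA⟩ := exists_mealy h1
    rw [← hA] at h2 h3
    rw [NN_code, reach1] at h2
    rw [reach2] at h3
    push Not at h3
    refine ⟨A, ?_, h2, h3⟩
    have h4 : bits A = bits A.code := rfl
    rw [h4, hA]
    unfold init
    cases hx : unbits Cd x with
    | none =>
      exfalso
      unfold init at h1
      rw [hx, Option.getD_none] at h1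
      exact absurd h1 (by decide)
    | some c =>
      rw [Option.getD_some]
      exact bits_of_unbits hx

end Pool.Agent.Q216.Mealy
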